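import Pool.Agent.H33R3.Bom.Final2

set_option autoImplicit false

/-!
# Q2: finiteness of the constants `d_n`, with an explicit bound
-/

namespace Pool.Agent.Results.MP_7d58db_an.ModulusConstants

open Metric Set

/-- The class `S`: analytic and injective functions on the unit disc, `f 0 = 0`, `f' 0 = 1`. -/
def S : Set (ℂ → ℂ) :=
  {f | DifferentiableOn ℂ f (ball 0 1) ∧ InjOn f (ball 0 1) ∧ f 0 = 0 ∧ deriv f 0 = 1}

/-- The `n`-th Taylor coefficient of `f` at the origin. -/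
noncomputable def a (f : ℂ → ℂ) (n : ℕ) : ℂ := iteratedDeriv n f 0 / (n.factorial : ℂ)

/-- For every `n ≥ 2` there is a finite constant `d`, for instance `10^6 n^4 (1 + log n)`, with
`|n - |a_n|| ≤ d (2 - |a_2|)` for all `f` in the class `S`. -/
theorem result :
    ∀ n : ℕ, 2 ≤ n → ∃ d : ℝ, d = 10 ^ 6 * (n : ℝ) ^ 4 * (1 + Real.log n) ∧
      ∀ f ∈ S, |(n : ℝ) - ‖a f n‖| ≤ d * (2 - ‖a f 2‖) := by
  intro n hn
  refine ⟨_, rfl, fun f hf => ?_⟩
  exact (Pool.Agent.H33R3.Bom.goal2 f ⟨hf.1, hf.2.1, hf.2.2.1, hf.2.2.2⟩ n hn).2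

end Pool.Agent.Results.MP_7d58db_an.ModulusConstants
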